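import Mathlib
import Pool.Agent.Lib.MP_eb85ab_an.Final

/-!
# Pluricomplex Green functions with colliding poles: convergence in `L¹_loc` is locally uniform

Let `Ω ⊆ ℂⁿ` be a bounded open set with a negative plurisubharmonic exhaustion function (for
instance a bounded hyperconvex domain) and `0 ∈ Ω`.  Let `a i j`, `j < N`, be points depending on a
parameter `i` (for instance `i = ε > 0`, with `l` the filter of `ε → 0⁺`) which all tend to `0`.
If the Green functions `G_i` with poles `a i j` tend to `g` in `L¹_loc(Ω)`, then `g` has a version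
`g'` which is continuous on `Ω \ {0}` and `G_i → g'` uniformly on the compact subsets of
`Ω \ {0}`.

Proof: let `z₀ ≠ 0` and let `h` be the polynomial `h(z) = ∏ ⟨z - a_j, z₀⟩ / ⟨z₀ - a_j, z₀⟩`, which
vanishes at the poles and is `1` at `z₀`.  The map `Φ(z) = z + h(z) w`, `w` small, fixes the poles
and maps `z₀` to `z₀ + w`.  If `v` is in the defining family, then `v ∘ Φ - δ`, glued near the
boundary with an explicit member of the family, is in the family, whence
`G(z₀ + w) - δ ≤ G(z₀)`, uniformly in the poles.  So the Green functions are equicontinuous away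
from the origin.  That plurisubharmonic functions (defined by the sub-mean value inequality on
affine discs) are stable under composition with entire maps is proved by doubling the variables.
-/

open Set Filter Topology MeasureTheory
open scoped ENNReal

namespace Pool.Agent.Results.MP_eb85ab_an.LocallyUniform

open Pool.Agent.Lib.MP_eb85ab_an

/-- If the pluricomplex Green functions of `Ω` with `N` poles colliding at `0` converge in
`L¹_loc(Ω)`, then they converge locally uniformly on `Ω \ {0}`. -/
theorem result {n N : ℕ} (hn : 0 < n) {Ω : Set (EuclideanSpace ℂ (Fin n))} (hΩ : IsOpen Ω)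
    (hbdd : Bornology.IsBounded Ω) (hex : HasPshExhaustion Ω) (h0 : 0 ∈ Ω)
    {ι : Type*} {l : Filter ι} [l.NeBot] (a : ι → Fin N → EuclideanSpace ℂ (Fin n))
    (ha : ∀ j, Tendsto (fun i => a i j) l (𝓝 0))
    (g : EuclideanSpace ℂ (Fin n) → ℝ) (hg : LocallyIntegrableOn g Ω)
    (hconv : ∀ K ⊆ Ω, IsCompact K →
      Tendsto (fun i => ∫⁻ z in K, ‖(green Ω (range (a i)) z).toReal - g z‖ₑ) l (𝓝 0)) :
    ∃ g' : EuclideanSpace ℂ (Fin n) → ℝ, ContinuousOn g' (Ω \ {0}) ∧
      g' =ᵐ[volume.restrict Ω] g ∧
      ∀ K ⊆ Ω \ {0}, IsCompact K → ∀ η : ℝ, 0 < η → ∀ᶠ i in l, ∀ z ∈ K,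
        ((g' z - η : ℝ) : EReal) < green Ω (range (a i)) z ∧
        green Ω (range (a i)) z < ((g' z + η : ℝ) : EReal) :=
  main hn hΩ hbdd hex h0 a ha g hg hconv

end Pool.Agent.Results.MP_eb85ab_an.LocallyUniform
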